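import Pool.Agent.Results.MP_9020c0_gt.BelowHexagon

/-!
# Tilings by translates of two tiles with isoperimetric ratios at most `13.812 < 8√3`

The two tiles of the starting result `BelowHexagon` (an octagon, and a hexagon with three dents)
are used with their exact data: after scaling they give, for every `D₀ > 0`, a tiling of the plane by
the translates of two closed topological disks under a lattice, with all diameters in `[D₀, 19 D₀]`
and all isoperimetric ratios at most `13.812`, while the regular hexagon has `8√3 = 13.8564…`.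
-/

set_option autoImplicit false

open MeasureTheory MeasureTheory.Measure Pool.Agent.Results.MP_9020c0_gt.BelowHexagon

namespace Pool.Agent.Results.MP_9020c0_gt.LatticeTiling

theorem isoRatio_le' (A : Set E2) (L V : ℝ) (hV : 0 < V) (hL : 0 ≤ L)
    (h1 : μH[1] (frontier A) ≤ ENNReal.ofReal L) (h2 : ENNReal.ofReal V ≤ volume A)
    (h3 : L ^ 2 ≤ 13.812 * V) : isoRatio A ≤ ENNReal.ofReal 13.812 := by
  unfold isoRatio
  calc (μH[1] (frontier A)) ^ 2 / volume A ≤ (ENNReal.ofReal L) ^ 2 / ENNReal.ofReal V := by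
        gcongr
    _ = ENNReal.ofReal (L ^ 2 / V) := by
        rw [← ENNReal.ofReal_pow hL, ENNReal.ofReal_div_of_pos hV]
    _ ≤ ENNReal.ofReal 13.812 := by
        apply ENNReal.ofReal_le_ofReal
        rw [div_le_iff₀ hV]
        exact h3

theorem isoRatio_tiles' (i : (ℤ × ℤ) × Bool) : isoRatio (tiles i) ≤ ENNReal.ofReal 13.812 := by
  obtain ⟨⟨i, j⟩, b⟩ := i
  cases b
  · change isoRatio (region gS (cS i j)) ≤ _
    apply isoRatio_le' _ 45.505 150 (by norm_num) (by norm_num)
    · rw [length_region gS gaugeS]; exact perS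
    · rw [volume_region]; exact areaS
    · norm_num
  · change isoRatio (region gB (cB i j)) ≤ _
    apply isoRatio_le' _ 576.25 24042 (by norm_num) (by norm_num)
    · rw [length_region gB gaugeB]; exact perB
    · rw [volume_region]; exact areaB
    · norm_num

/-- Both regions lie in the disk of radius `133` about their centre. -/
theorem region_sub (g : E2 → ℝ) (hg : ∀ x : E2, g x ≤ 1 → |x 0| ≤ 84 ∧ |x 1| ≤ 96) (c : E2) :
    region g c ⊆ Metric.closedBall c 133 := by
  intro x hx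
  have hx' : g (x - c) ≤ 1 := hx
  obtain ⟨h0, h1⟩ := hg _ hx'
  rw [mem_closedBall_iff_norm, EuclideanSpace.norm_eq, Fin.sum_univ_two]
  apply Real.sqrt_le_iff.2
  refine ⟨by norm_num, ?_⟩
  rw [Real.norm_eq_abs, Real.norm_eq_abs]
  have e0 : |(x - c) 0| ^ 2 ≤ 84 ^ 2 := pow_le_pow_left₀ (abs_nonneg _) h0 2
  have e1 : |(x - c) 1| ^ 2 ≤ 96 ^ 2 := pow_le_pow_left₀ (abs_nonneg _) h1 2
  linarith

theorem boundS (x : E2) (h : gS x ≤ 1) : |x 0| ≤ 84 ∧ |x 1| ≤ 96 := by
  obtain ⟨⟨⟨h1, h2⟩, h3, h4⟩, ⟨h5, h6⟩, h7, h8⟩ := (gS_le x).1 h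
  exact ⟨abs_le.2 ⟨by linarith, by linarith⟩, abs_le.2 ⟨by linarith, by linarith⟩⟩

theorem boundB (x : E2) (h : gB x ≤ 1) : |x 0| ≤ 84 ∧ |x 1| ≤ 96 := by
  obtain ⟨⟨⟨h1, h2⟩, ⟨h3, h4⟩, h5, h6⟩, -⟩ := (gB_le x).1 h
  exact ⟨abs_le.2 ⟨by linarith, by linarith⟩, abs_le.2 ⟨by linarith, by linarith⟩⟩

theorem diam_tiles_le (i : (ℤ × ℤ) × Bool) : Metric.diam (tiles i) ≤ 266 := by
  obtain ⟨⟨i, j⟩, b⟩ := i
  have key : ∀ (g : E2 → ℝ), (∀ x : E2, g x ≤ 1 → |x 0| ≤ 84 ∧ |x 1| ≤ 96) → ∀ c : E2,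
      Metric.diam (region g c) ≤ 266 := by
    intro g hg c
    calc Metric.diam (region g c) ≤ Metric.diam (Metric.closedBall c 133) :=
          Metric.diam_mono (region_sub g hg c) Metric.isBounded_closedBall
      _ ≤ 2 * 133 := Metric.diam_closedBall (by norm_num)
      _ = 266 := by norm_num
  cases b
  · exact key gS boundS _
  · exact key gB boundB _

/-- The family of the translates of `P` and of `Q` by the vectors `m u + n w`, with integers `m`, `n`. -/
noncomputable def latticeTiles (P Q : Set E2) (u w : E2) : (ℤ × ℤ) × Bool → Set E2 := fun i =>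
  (fun x => x + ((i.1.1 : ℝ) • u + (i.1.2 : ℝ) • w)) '' (if i.2 then Q else P)

open Pointwise in
theorem smul_region (t : ℝ) (g : E2 → ℝ) (c v : E2) :
    t • region g (c + v) = (fun x => x + t • v) '' (t • region g c) := by
  ext y
  constructor
  · rintro ⟨x, hx, rfl⟩
    refine ⟨t • (x - v), ⟨x - v, ?_, rfl⟩, ?_⟩
    · change g (x - v - c) ≤ 1
      have : g (x - (c + v)) ≤ 1 := hx
      rwa [show x - v - c = x - (c + v) by abel]
    · simp [smul_sub]
  · rintro ⟨_, ⟨x, hx, rfl⟩, rfl⟩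
    refine ⟨x + v, ?_, ?_⟩
    · change g (x + v - (c + v)) ≤ 1
      have : g (x - c) ≤ 1 := hx
      rwa [show x + v - (c + v) = x - c by abel]
    · simp [smul_add]

theorem cB_eq (i j : ℤ) :
    cB i j = cB 0 0 + ((i : ℝ) • (!₂[168, 0] : E2) + (j : ℝ) • (!₂[84, 144] : E2)) := by
  ext k
  fin_cases k <;> simp [cB] <;> ring

theorem cS_eq (i j : ℤ) :
    cS i j = cS 0 0 + ((i : ℝ) • (!₂[168, 0] : E2) + (j : ℝ) • (!₂[84, 144] : E2)) := by
  ext k
  fin_cases k <;> simp [cS] <;> ring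

open Pointwise in
theorem tiles_eq (t : ℝ) :
    (fun i => t • tiles i) = latticeTiles (t • region gS (cS 0 0)) (t • region gB (cB 0 0))
      (t • (!₂[168, 0] : E2)) (t • (!₂[84, 144] : E2)) := by
  funext i
  obtain ⟨⟨m, n⟩, b⟩ := i
  have hv : t • ((m : ℝ) • (!₂[168, 0] : E2) + (n : ℝ) • (!₂[84, 144] : E2))
      = (m : ℝ) • (t • (!₂[168, 0] : E2)) + (n : ℝ) • (t • (!₂[84, 144] : E2)) := by
    rw [smul_add, smul_comm t, smul_comm t]
  cases b
  · change t • region gS (cS m n) = _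
    rw [cS_eq m n, smul_region, hv]
    rfl
  · change t • region gB (cB m n) = _
    rw [cB_eq m n, smul_region, hv]
    rfl

theorem convexS (c : E2) : Convex ℝ (region gS c) := by
  intro x hx y hy a b ha hb hab
  have h1 : gS (x - c) ≤ 1 := hx
  have h2 : gS (y - c) ≤ 1 := hy
  change gS (a • x + b • y - c) ≤ 1
  have e : a • x + b • y - c = a • (x - c) + b • (y - c) := by
    rw [smul_sub, smul_sub]
    have : c = a • c + b • c := by rw [← add_smul, hab, one_smul]
    nth_rewrite 1 [this]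
    abel
  rw [e]
  rw [gS_le] at h1 h2 ⊢
  obtain ⟨⟨⟨p1, p2⟩, p3, p4⟩, ⟨p5, p6⟩, p7, p8⟩ := h1
  obtain ⟨⟨⟨q1, q2⟩, q3, q4⟩, ⟨q5, q6⟩, q7, q8⟩ := h2
  have hb' : b = 1 - a := by linarith
  simp only [PiLp.add_apply, PiLp.smul_apply, smul_eq_mul]
  have M := fun {u v k : ℝ} (hu : u ≤ k) (hv : v ≤ k) =>
    (show a * u + b * v ≤ k from by
      have h1 := mul_le_mul_of_nonneg_left hu ha
      have h2 := mul_le_mul_of_nonneg_left hv hb
      have h3 : a * k + b * k = k := by rw [← add_mul, hab, one_mul]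
      linarith)
  refine ⟨⟨⟨?_, ?_⟩, ?_, ?_⟩, ⟨?_, ?_⟩, ?_, ?_⟩
  · linarith [M p1 q1]
  · linarith [M p2 q2]
  · linarith [M p3 q3]
  · linarith [M p4 q4]
  · linarith [M p5 q5]
  · linarith [M p6 q6]
  · linarith [M p7 q7]
  · linarith [M p8 q8]

theorem indep (t : ℝ) (ht : t ≠ 0) :
    LinearIndependent ℝ ![t • (!₂[168, 0] : E2), t • (!₂[84, 144] : E2)] := by
  rw [LinearIndependent.pair_iff]
  intro a b h
  have h0 := congrFun (congrArg (fun v : E2 => (v : Fin 2 → ℝ)) h) 0
  have h1 := congrFun (congrArg (fun v : E2 => (v : Fin 2 → ℝ)) h) 1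
  simp at h0 h1
  have hb : b = 0 := by
    rcases h1 with h | h
    · exact h
    · exact absurd h ht
  subst hb
  simp at h0
  rcases h0 with h | h
  · exact ⟨h, rfl⟩
  · exact absurd h ht

open Pointwise in
/-- For every `D₀ > 0` there are a convex set `P`, a set `Q` and a lattice (spanned by `u` and `w`) such
that the translates of `P` and of `Q` by the lattice vectors form a tiling of the plane by closed
topological disks, with diameters between `D₀` and `19 D₀`, and all isoperimetric ratios are at most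
`13.812`, which is smaller than `8√3`. -/
theorem result : (13.812 : ℝ) < 8 * Real.sqrt 3 ∧
    ∀ D₀ : ℝ, 0 < D₀ → ∃ (P Q : Set E2) (u w : E2), LinearIndependent ℝ ![u, w] ∧ Convex ℝ P ∧
      IsTiling (latticeTiles P Q u w) ∧
      (∀ i, D₀ ≤ Metric.diam (latticeTiles P Q u w i) ∧
        Metric.diam (latticeTiles P Q u w i) ≤ 19 * D₀) ∧
      (⨆ i, isoRatio (latticeTiles P Q u w i)) ≤ ENNReal.ofReal 13.812 := by
  constructor
  · have : (1.73 : ℝ) < Real.sqrt 3 := by
      rw [Real.lt_sqrt (by norm_num)]; norm_num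
    linarith
  intro D₀ hD
  have ht : 0 < D₀ / 14 := by positivity
  refine ⟨(D₀ / 14) • region gS (cS 0 0), (D₀ / 14) • region gB (cB 0 0),
    (D₀ / 14) • (!₂[168, 0] : E2), (D₀ / 14) • (!₂[84, 144] : E2), indep _ ht.ne',
    (convexS _).smul _, ?_⟩
  rw [← tiles_eq]
  refine ⟨⟨inferInstance, ?_, ?_, ?_⟩, ?_, ?_⟩
  · intro i
    have h : IsDisk (tiles i) := by
      obtain ⟨⟨i, j⟩, b⟩ := i
      cases b
      · exact region_isDisk gS gaugeS _
      · exact region_isDisk gB gaugeB _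
    obtain ⟨e⟩ := h
    exact ⟨((Homeomorph.smulOfNeZero (D₀ / 14) ht.ne').image (tiles i)).symm.trans e⟩
  · rw [← Set.smul_set_iUnion, tiles_cover, Set.smul_set_univ₀ ht.ne']
  · intro i j hij
    rw [interior_smul₀ ht.ne', interior_smul₀ ht.ne', ← Set.image_smul, ← Set.image_smul,
      Set.disjoint_image_iff (MulAction.injective₀ ht.ne')]
    exact tiles_disjoint i j hij
  · intro i
    rw [diam_smul₀, Real.norm_of_nonneg ht.le]
    have h1 := diam_tiles i
    have h2 := diam_tiles_le i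
    constructor
    · calc D₀ = D₀ / 14 * 14 := by field_simp
        _ ≤ D₀ / 14 * Metric.diam (tiles i) := by gcongr
    · calc D₀ / 14 * Metric.diam (tiles i) ≤ D₀ / 14 * 266 := by gcongr
        _ = 19 * D₀ := by ring
  · apply iSup_le
    intro i
    rw [isoRatio_smul _ ht]
    exact isoRatio_tiles' i

end Pool.Agent.Results.MP_9020c0_gt.LatticeTiling
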